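import Pool.Agent.EWN.Core

/-!
# An odd extremity of an even amplitude has many prime factors below the amplitude
-/

set_option autoImplicit false

namespace Pool.Agent.Results.MP_9b572d_nt.ManyPrimes

open Pool.Agent.EWR (NC)
open Pool.Agent.EWN (primesOf)

/-- If `d` is even, `a` is odd and `NC a d` holds, then each of `a` and `a + d` is divisible by at
least `√(8 log₂ d) - 4` primes below `d` which do not divide `d`. -/
theorem result (a d : ℕ) (hd : Even d) (ha : Odd a) (h : NC a d) :
    Real.sqrt (8 * Real.logb 2 d) - 4 ≤ (primesOf a d).card ∧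
      Real.sqrt (8 * Real.logb 2 d) - 4 ≤ (primesOf (a + d) d).card :=
  ⟨Pool.Agent.EWN.log_form (Pool.Agent.EWN.many a d hd ha h).1,
    Pool.Agent.EWN.log_form (Pool.Agent.EWN.many a d hd ha h).2⟩

end Pool.Agent.Results.MP_9b572d_nt.ManyPrimes
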