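import Pool.Agent.EWR.Parity

/-!
# The extremity is even for a positive proportion of the odd parts of the amplitude
-/

set_option autoImplicit false

namespace Pool.Agent.Results.MP_9b572d_nt.PositiveDensity

open Pool.Agent.EWR

/-- For a positive proportion of the odd numbers `m` (lower density) the following holds for every
even amplitude `d = 2^n m` with odd part `m`: `NC(a,d)` implies that `a` is even, for every `a`. -/
theorem result : ∃ δ : ℝ, 0 < δ ∧ ∃ N₀ : ℕ, ∀ N : ℕ, N₀ ≤ N →
    δ * N ≤ ({m : ℕ | m ≤ N ∧ Odd m ∧ ∀ n : ℕ, 1 ≤ n → ∀ a : ℕ, NC a (2 ^ n * m) →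
      Even a}.ncard : ℝ) :=
  parity_density

end Pool.Agent.Results.MP_9b572d_nt.PositiveDensity
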